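import Mathlib
import Pool.Agent.R201.GoldenA

open Filter Topology

/-!
# MP_287b0d_an: the weights on the spectrum of the golden mean are not equidistributed mod 1
-/

namespace Pool.Agent.Results.MP_287b0d_an.NotEquidistributed

/-- The spectrum `X(φ)` of the golden mean with digits `-1, 0, 1`. -/
def X : Set ℝ :=
  {x | ∃ n : ℕ, 1 ≤ n ∧ ∃ c : Fin n → ℤ, (∀ i, c i = -1 ∨ c i = 0 ∨ c i = 1) ∧
    x = ∑ i : Fin n, (c i : ℝ) * Real.goldenRatio ^ (n - 1 - (i : ℕ))}

/-- `N n x` is the number of pairs `(a, b)` of 0-1 words of length `n` with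
`∑ (a_i - b_i) φ^(n-i) = x`. -/
noncomputable def N (n : ℕ) (x : ℝ) : ℕ :=
  Nat.card {p : (Fin n → Fin 2) × (Fin n → Fin 2) //
    ∑ i : Fin n, (((p.1 i : ℕ) : ℝ) - ((p.2 i : ℕ) : ℝ)) * Real.goldenRatio ^ (n - 1 - (i : ℕ)) = x}

/-- `lam` is the growth rate of `N n 0`, and `mu x = lim N n x / lam ^ n` on `X`. -/
structure IsWeight (lam : ℝ) (mu : ℝ → ℝ) : Prop where
  pos : 0 < lam
  growth : Tendsto (fun n : ℕ => (N n 0 : ℝ) ^ (1 / (n : ℝ))) atTop (𝓝 lam)
  lim : ∀ x ∈ X, Tendsto (fun n : ℕ => (N n x : ℝ) / lam ^ n) atTop (𝓝 (mu x))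

/-- Total weight of `X ∩ [0, n]`. -/
noncomputable def W (mu : ℝ → ℝ) (n : ℕ) : ℝ := ∑' x : ↥(X ∩ Set.Icc 0 (n : ℝ)), mu x

/-- The integral of `f` with respect to the probability measure `ν_n`. -/
noncomputable def nu (mu : ℝ → ℝ) (n : ℕ) (f : ℝ → ℝ) : ℝ :=
  (W mu n)⁻¹ * ∑' x : ↥(X ∩ Set.Icc 0 (n : ℝ)), mu x * f (Int.fract (x : ℝ))

open Pool.Agent.R201.Golden

/-! ### recursion for the counts -/

/-- The value of a pair of words. -/
noncomputable def S (n : ℕ) (p : (Fin n → Fin 2) × (Fin n → Fin 2)) : ℝ :=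
  ∑ i : Fin n, (((p.1 i : ℕ) : ℝ) - ((p.2 i : ℕ) : ℝ)) * g ^ (n - 1 - (i : ℕ))

theorem N_eq (n : ℕ) (x : ℝ) : N n x = ∑ p : (Fin n → Fin 2) × (Fin n → Fin 2), if S n p = x then 1 else 0 := by
  classical
  rw [Finset.sum_boole, N, Nat.card_eq_fintype_card, Fintype.card_subtype]
  rfl

/-- splitting off the last letters. -/
def spl (n : ℕ) : ((Fin 2 × (Fin n → Fin 2)) × (Fin 2 × (Fin n → Fin 2))) ≃
    (Fin (n + 1) → Fin 2) × (Fin (n + 1) → Fin 2) :=
  Equiv.prodCongr (Fin.snocEquiv (fun _ => Fin 2)) (Fin.snocEquiv (fun _ => Fin 2))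

theorem S_spl (n : ℕ) (q : (Fin 2 × (Fin n → Fin 2)) × (Fin 2 × (Fin n → Fin 2))) :
    S (n + 1) (spl n q) = g * S n (q.1.2, q.2.2) + (((q.1.1 : ℕ) : ℝ) - ((q.2.1 : ℕ) : ℝ)) := by
  unfold S
  rw [Fin.sum_univ_castSucc, Finset.mul_sum]
  congr 1
  · apply Finset.sum_congr rfl
    intro i _
    have hi := i.2
    have e : n + 1 - 1 - ((Fin.castSucc i : Fin (n + 1)) : ℕ) = (n - 1 - (i : ℕ)) + 1 := by
      simp only [Fin.val_castSucc]; omega
    rw [e, pow_succ]
    simp [spl, Fin.snocEquiv]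
    ring
  · simp [spl, Fin.snocEquiv]

theorem N_succ (n : ℕ) (x : ℝ) :
    N (n + 1) x = 2 * N n (x / g) + N n ((x - 1) / g) + N n ((x + 1) / g) := by
  have hg := g_pos
  have key : ∀ (s t : ℝ), (g * s + t = x) ↔ (s = (x - t) / g) := by
    intro s t
    rw [eq_div_iff hg.ne']
    constructor <;> intro h <;> linarith
  rw [N_eq, ← (spl n).sum_comp]
  simp only [S_spl, key]
  rw [Fintype.sum_prod_type]
  simp only [Fintype.sum_prod_type, Fin.sum_univ_two]
  rw [N_eq, N_eq, N_eq]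
  simp only [Fintype.sum_prod_type]
  simp only [Fin.val_zero, Fin.val_one, Nat.cast_zero, Nat.cast_one, sub_zero, zero_sub, sub_self,
    sub_neg_eq_add]
  simp only [Finset.sum_add_distrib]
  ring

/-- counts on pairs -/
noncomputable def M (n : ℕ) (y : ℤ × ℤ) : ℕ := N n (val y)

theorem M_zero (y : ℤ × ℤ) : M 0 y = if y = 0 then 1 else 0 := by
  unfold M
  rw [N_eq]
  have h0 : ∀ p : (Fin 0 → Fin 2) × (Fin 0 → Fin 2), S 0 p = 0 := by intro p; simp [S]
  simp only [h0]
  by_cases hy : y = 0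
  · subst hy
    simp [val]
  · have : (0 : ℝ) ≠ val y := by
      intro h
      apply hy
      apply val_inj
      rw [← h]; simp [val]
    simp [hy, this]

theorem val_symm (c : ℤ) (y : ℤ × ℤ) : val ((sh c).symm y) = (val y - c) / g := by
  have h := val_sh c ((sh c).symm y)
  rw [Equiv.apply_symm_apply] at h
  rw [eq_div_iff g_pos.ne', h]
  ring

theorem cnj_symm (c : ℤ) (y : ℤ × ℤ) : cnj y = (1 - g) * cnj ((sh c).symm y) + c := by
  have h := cnj_sh c ((sh c).symm y)
  rwa [Equiv.apply_symm_apply] at h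

theorem M_succ (n : ℕ) (y : ℤ × ℤ) :
    M (n + 1) y = 2 * M n ((sh 0).symm y) + M n ((sh 1).symm y) + M n ((sh (-1)).symm y) := by
  unfold M
  rw [N_succ, val_symm, val_symm, val_symm]
  push_cast
  rw [sub_zero, sub_neg_eq_add]

theorem M_supp (n : ℕ) (y : ℤ × ℤ) (h : M n y ≠ 0) : |cnj y| < g ^ 2 := by
  induction n generalizing y with
  | zero =>
    rw [M_zero] at h
    split_ifs at h with hy
    · subst hy
      have := g_pos
      simp [cnj]
      positivity
    · exact absurd rfl h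
  | succ n ih =>
    rw [M_succ] at h
    have key : ∀ c : ℤ, |(c : ℝ)| ≤ 1 → M n ((sh c).symm y) ≠ 0 → |cnj y| < g ^ 2 := by
      intro c hc h1
      have h2 := ih _ h1
      rw [cnj_symm c y]
      have hg := g_lo
      have hs := g_sq
      calc |(1 - g) * cnj ((sh c).symm y) + c| ≤ |(1 - g) * cnj ((sh c).symm y)| + |(c : ℝ)| := abs_add_le _ _
        _ = (g - 1) * |cnj ((sh c).symm y)| + |(c : ℝ)| := by
          rw [abs_mul, abs_sub_comm 1 g, abs_of_pos (by linarith : 0 < g - 1)]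
        _ < (g - 1) * g ^ 2 + 1 := by nlinarith
        _ = g ^ 2 := by nlinarith
    by_cases h0 : M n ((sh 0).symm y) = 0
    · by_cases h1 : M n ((sh 1).symm y) = 0
      · apply key (-1) (by simp)
        omega
      · exact key 1 (by simp) h1
    · exact key 0 (by simp) h0

theorem M_neg (n : ℕ) (y : ℤ × ℤ) : M n (-y) = M n y := by
  induction n generalizing y with
  | zero => rw [M_zero, M_zero]; simp
  | succ n ih =>
    rw [M_succ, M_succ]
    have h0 : (sh 0).symm (-y) = - ((sh 0).symm y) := by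
      ext <;> simp [sh] <;> ring
    have h1 : (sh 1).symm (-y) = - ((sh (-1)).symm y) := by
      ext <;> simp [sh] <;> ring
    have h2 : (sh (-1)).symm (-y) = - ((sh 1).symm y) := by
      ext <;> simp [sh] <;> ring
    rw [h0, h1, h2, ih, ih, ih]
    ring

theorem M_big (n : ℕ) (y : ℤ × ℤ) (h : g ^ 2 ≤ |cnj y|) : M n y = 0 := by
  by_contra hc
  exact absurd (M_supp n y hc) (not_lt.mpr h)

/-! ### the three-state recursion -/

theorem u_succ (n : ℕ) : M (n + 1) 0 = 2 * M n 0 + 2 * M n (-1, 1) := by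
  rw [M_succ]
  have h0 : (sh 0).symm (0 : ℤ × ℤ) = 0 := by ext <;> simp [sh]
  have h1 : (sh 1).symm (0 : ℤ × ℤ) = -(-1, 1) := by ext <;> simp [sh]
  have h2 : (sh (-1)).symm (0 : ℤ × ℤ) = (-1, 1) := by ext <;> simp [sh]
  rw [h0, h1, h2, M_neg]
  ring

theorem v_succ (n : ℕ) : M (n + 1) (-1, 1) = M n (1, 0) := by
  rw [M_succ]
  have h0 : (sh 0).symm ((-1, 1) : ℤ × ℤ) = (2, -1) := by ext <;> simp [sh]
  have h1 : (sh 1).symm ((-1, 1) : ℤ × ℤ) = (3, -2) := by ext <;> simp [sh]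
  have h2 : (sh (-1)).symm ((-1, 1) : ℤ × ℤ) = (1, 0) := by ext <;> simp [sh]
  have hs := g_sq
  have hg := g_pos
  have e0 : M n (2, -1) = 0 := by
    apply M_big
    refine le_trans ?_ (le_abs_self _)
    simp [cnj]; linarith
  have e1 : M n (3, -2) = 0 := by
    apply M_big
    refine le_trans ?_ (le_abs_self _)
    simp [cnj]; linarith
  rw [h0, h1, h2, e0, e1]
  ring

theorem w_succ (n : ℕ) : M (n + 1) (1, 0) = M n 0 + 2 * M n (-1, 1) := by
  rw [M_succ]
  have h0 : (sh 0).symm ((1, 0) : ℤ × ℤ) = (-1, 1) := by ext <;> simp [sh]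
  have h1 : (sh 1).symm ((1, 0) : ℤ × ℤ) = 0 := by ext <;> simp [sh]
  have h2 : (sh (-1)).symm ((1, 0) : ℤ × ℤ) = (-2, 2) := by ext <;> simp [sh]
  have hs := g_sq
  have hg := g_lo
  have e0 : M n (-2, 2) = 0 := by
    apply M_big
    refine le_trans ?_ (neg_le_abs _)
    simp [cnj]; linarith
  rw [h0, h1, h2, e0]
  ring

theorem x_succ (n : ℕ) : M (n + 1) (0, 1) = 2 * M n (1, 0) + M n (0, 1) := by
  rw [M_succ]
  have h0 : (sh 0).symm ((0, 1) : ℤ × ℤ) = (1, 0) := by ext <;> simp [sh]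
  have h1 : (sh 1).symm ((0, 1) : ℤ × ℤ) = (2, -1) := by ext <;> simp [sh]
  have h2 : (sh (-1)).symm ((0, 1) : ℤ × ℤ) = (0, 1) := by ext <;> simp [sh]
  have hs := g_sq
  have hg := g_lo
  have e0 : M n (2, -1) = 0 := by
    apply M_big
    refine le_trans ?_ (le_abs_self _)
    simp [cnj]; linarith
  rw [h0, h1, h2, e0]
  ring

theorem exists_lam : ∃ lam : ℝ, 2.48 < lam ∧ lam < 2.49 ∧ lam ^ 3 - 2 * lam ^ 2 - 2 * lam + 2 = 0 := by
  have hc : ContinuousOn (fun x : ℝ => x ^ 3 - 2 * x ^ 2 - 2 * x + 2) (Set.Icc 2.48 2.49) := by fun_prop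
  have := intermediate_value_Ioo (by norm_num : (2.48 : ℝ) ≤ 2.49) hc
  have h0 : (0 : ℝ) ∈ Set.Ioo ((fun x : ℝ => x ^ 3 - 2 * x ^ 2 - 2 * x + 2) 2.48)
      ((fun x : ℝ => x ^ 3 - 2 * x ^ 2 - 2 * x + 2) 2.49) := by
    constructor <;> norm_num
  obtain ⟨l, hl, hl2⟩ := this h0
  exact ⟨l, hl.1, hl.2, hl2⟩

/-- The growth constant. -/
noncomputable def lam0 : ℝ := exists_lam.choose

theorem lam_lo : 2.48 < lam0 := exists_lam.choose_spec.1
theorem lam_hi : lam0 < 2.49 := exists_lam.choose_spec.2.1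
theorem lam_eq : lam0 ^ 3 - 2 * lam0 ^ 2 - 2 * lam0 + 2 = 0 := exists_lam.choose_spec.2.2

theorem inv_id (n : ℕ) : (M n 0 : ℝ) + lam0 * (lam0 - 2) * M n (-1, 1) + (lam0 - 2) * M n (1, 0) = lam0 ^ n := by
  induction n with
  | zero =>
    rw [M_zero, M_zero, M_zero]
    simp
  | succ n ih =>
    rw [u_succ, v_succ, w_succ, pow_succ, ← ih]
    have h := lam_eq
    push_cast
    linear_combination (-(M n (-1, 1) : ℝ)) * h

theorem u_mono3 (n : ℕ) : M n (-1, 1) ≤ M n 0 ∧ M n (1, 0) ≤ M n 0 := by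
  induction n with
  | zero => rw [M_zero, M_zero, M_zero]; simp
  | succ n ih =>
    rw [u_succ, v_succ, w_succ]
    omega

theorem u_le (n : ℕ) : (M n 0 : ℝ) ≤ lam0 ^ n := by
  have h := inv_id n
  have h1 := lam_lo
  have h2 : (0 : ℝ) ≤ M n (-1, 1) := Nat.cast_nonneg _
  have h3 : (0 : ℝ) ≤ M n (1, 0) := Nat.cast_nonneg _
  have h4 : 0 ≤ lam0 * (lam0 - 2) * M n (-1, 1) := by
    apply mul_nonneg (mul_nonneg _ _) h2 <;> linarith
  have h5 : 0 ≤ (lam0 - 2) * M n (1, 0) := mul_nonneg (by linarith) h3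
  linarith

theorem le_u (n : ℕ) : lam0 ^ n ≤ 3 * (M n 0 : ℝ) := by
  have h := inv_id n
  have h1 := lam_lo
  have h1' := lam_hi
  have h2 : ((M n (-1, 1) : ℕ) : ℝ) ≤ M n 0 := by exact_mod_cast (u_mono3 n).1
  have h3 : ((M n (1, 0) : ℕ) : ℝ) ≤ M n 0 := by exact_mod_cast (u_mono3 n).2
  have h0 : (0 : ℝ) ≤ M n 0 := Nat.cast_nonneg _
  have h4 : lam0 * (lam0 - 2) * M n (-1, 1) ≤ 1.3 * M n 0 := by
    have : lam0 * (lam0 - 2) ≤ 1.3 := by nlinarith
    have h5 : (0 : ℝ) ≤ M n (-1, 1) := Nat.cast_nonneg _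
    nlinarith
  have h5 : (lam0 - 2) * M n (1, 0) ≤ 0.5 * M n 0 := by
    have h5 : (0 : ℝ) ≤ M n (1, 0) := Nat.cast_nonneg _
    nlinarith
  linarith

theorem growth0 : Tendsto (fun n : ℕ => (N n 0 : ℝ) ^ (1 / (n : ℝ))) atTop (𝓝 lam0) := by
  have hl : 0 < lam0 := by linarith [lam_lo]
  have e : ∀ n, N n 0 = M n 0 := by intro n; unfold M; congr 1; simp [val]
  have h1 : Tendsto (fun n : ℕ => (1 / 3 : ℝ) ^ (1 / (n : ℝ)) * lam0) atTop (𝓝 (1 * lam0)) := by
    apply Tendsto.mul_const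
    have := (tendsto_const_nhds (x := (1 / 3 : ℝ)) (f := atTop (α := ℕ))).rpow tendsto_one_div_atTop_nhds_zero_nat
      (Or.inl (by norm_num))
    simpa using this
  rw [one_mul] at h1
  refine tendsto_of_tendsto_of_tendsto_of_le_of_le' h1 tendsto_const_nhds ?_ ?_
  · filter_upwards [eventually_gt_atTop 0] with n hn
    have hn' : (n : ℝ) ≠ 0 := by positivity
    have : lam0 = (lam0 ^ n) ^ (1 / (n : ℝ)) := by
      rw [← Real.rpow_natCast, ← Real.rpow_mul hl.le]; field_simp; simp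
    conv_lhs => rw [this]
    rw [← Real.mul_rpow (by norm_num) (by positivity)]
    apply Real.rpow_le_rpow (by positivity) _ (by positivity)
    rw [e]
    linarith [le_u n]
  · filter_upwards [eventually_gt_atTop 0] with n hn
    have hn' : (n : ℝ) ≠ 0 := by positivity
    have : lam0 = (lam0 ^ n) ^ (1 / (n : ℝ)) := by
      rw [← Real.rpow_natCast, ← Real.rpow_mul hl.le]; field_simp; simp
    conv_rhs => rw [this]
    apply Real.rpow_le_rpow (by positivity) _ (by positivity)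
    rw [e]
    exact u_le n

/-! ### existence of the limits -/

/-- The defect of geometric growth decays relatively. -/
def Q (y : ℤ × ℤ) : Prop := ∃ K : ℝ, ∀ n : ℕ, |(M (n + 1) y : ℝ) - lam0 * M n y| ≤ K * 1.3 ^ n

theorem Q_zero : Q 0 := by
  set d : ℕ → ℝ := fun n => (M (n + 1) 0 : ℝ) - lam0 * M n 0 with hd
  have hrec : ∀ n, d (n + 2) = -(lam0 - 2) * d (n + 1) + (2 / lam0) * d n := by
    intro n
    have hl := lam_lo
    have h1 : (M (n + 3) 0 : ℝ) = 2 * M (n + 2) 0 + 2 * M (n + 1) 0 - 2 * M n 0 := by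
      have a1 := u_succ (n + 2)
      have a2 := v_succ (n + 1)
      have a3 := w_succ n
      have a4 := u_succ n
      have : (M (n + 3) 0 : ℝ) + 2 * M n 0 = 2 * M (n + 2) 0 + 2 * M (n + 1) 0 := by
        have : M (n + 3) 0 + 2 * M n 0 = 2 * M (n + 2) 0 + 2 * M (n + 1) 0 := by
          rw [show n + 3 = n + 2 + 1 by ring, a1, show n + 2 = n + 1 + 1 by ring, a2, a3, a4]; ring
        exact_mod_cast this
      linarith
    simp only [hd]
    rw [show n + 2 + 1 = n + 3 by ring, h1, show n + 1 + 1 = n + 2 by ring]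
    have h := lam_eq
    field_simp
    linear_combination (-(M (n + 1) 0 : ℝ)) * h
  have hb : ∀ n, |d n| ≤ (|d 0| + |d 1|) * 1.3 ^ n ∧ |d (n + 1)| ≤ (|d 0| + |d 1|) * 1.3 ^ (n + 1) := by
    intro n
    induction n with
    | zero =>
      constructor
      · simp
      · simp only [zero_add, pow_one]
        nlinarith [abs_nonneg (d 0), abs_nonneg (d 1)]
    | succ n ih =>
      refine ⟨ih.2, ?_⟩
      rw [show n + 1 + 1 = n + 2 by ring, hrec]
      have hl := lam_lo
      have hl2 := lam_hi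
      have h2 : 2 / lam0 ≤ 0.81 := by
        rw [div_le_iff₀ (by linarith)]; linarith
      have h3 : 0 ≤ 2 / lam0 := by positivity
      calc |-(lam0 - 2) * d (n + 1) + 2 / lam0 * d n| ≤ |-(lam0 - 2) * d (n + 1)| + |2 / lam0 * d n| := abs_add_le _ _
        _ = (lam0 - 2) * |d (n + 1)| + 2 / lam0 * |d n| := by
          rw [abs_mul, abs_mul, abs_neg, abs_of_pos (by linarith : 0 < lam0 - 2), abs_of_nonneg h3]
        _ ≤ 0.49 * |d (n + 1)| + 0.81 * |d n| := by
          have := abs_nonneg (d (n + 1))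
          have := abs_nonneg (d n)
          gcongr
          linarith
        _ ≤ 0.49 * ((|d 0| + |d 1|) * 1.3 ^ (n + 1)) + 0.81 * ((|d 0| + |d 1|) * 1.3 ^ n) := by
          gcongr
          · exact ih.2
          · exact ih.1
        _ ≤ (|d 0| + |d 1|) * 1.3 ^ (n + 2) := by
          have : 0 ≤ (|d 0| + |d 1|) * 1.3 ^ n := by positivity
          rw [pow_succ, pow_succ, pow_succ]
          nlinarith
  exact ⟨_, fun n => (hb n).1⟩

theorem Q_v : Q (-1, 1) := by
  obtain ⟨K, hK⟩ := Q_zero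
  have hK0 : 0 ≤ K := by
    have := hK 0
    simp only [pow_zero, mul_one] at this
    exact (abs_nonneg _).trans this
  refine ⟨2 * K, fun n => ?_⟩
  have h1 := hK n
  have h2 := hK (n + 1)
  have a := u_succ n
  have b := u_succ (n + 1)
  have a' : (M (n + 1) 0 : ℝ) = 2 * M n 0 + 2 * M n (-1, 1) := by exact_mod_cast a
  have b' : (M (n + 1 + 1) 0 : ℝ) = 2 * M (n + 1) 0 + 2 * M (n + 1) (-1, 1) := by exact_mod_cast b
  have e : (M (n + 1) (-1, 1) : ℝ) - lam0 * M n (-1, 1) =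
      (((M (n + 1 + 1) 0 : ℝ) - lam0 * M (n + 1) 0) - 2 * ((M (n + 1) 0 : ℝ) - lam0 * M n 0)) / 2 := by
    rw [b']
    linear_combination (lam0 / 2) * a'
  rw [e]
  rw [abs_le] at *
  rw [pow_succ] at h2
  have : 0 ≤ K * 1.3 ^ n := by positivity
  constructor <;> linarith [h1.1, h1.2, h2.1, h2.2]

theorem Q_w : Q (1, 0) := by
  obtain ⟨K, hK⟩ := Q_v
  refine ⟨K * 1.3, fun n => ?_⟩
  have := hK (n + 1)
  rw [v_succ, v_succ] at this
  rw [pow_succ] at this
  linarith

theorem Q_x : Q (0, 1) := by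
  obtain ⟨K, hK⟩ := Q_w
  have hK0 : 0 ≤ K := by
    have := hK 0
    simp only [pow_zero, mul_one] at this
    exact (abs_nonneg _).trans this
  set d0 := |(M (0 + 1) (0, 1) : ℝ) - lam0 * M 0 (0, 1)| with hd0
  refine ⟨d0 + 10 * K, fun n => ?_⟩
  induction n with
  | zero => simp only [pow_zero, mul_one]; rw [← hd0]; linarith
  | succ n ih =>
    have h1 := hK n
    have a : (M (n + 1 + 1) (0, 1) : ℝ) = 2 * M (n + 1) (1, 0) + M (n + 1) (0, 1) := by
      exact_mod_cast x_succ (n + 1)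
    have b : (M (n + 1) (0, 1) : ℝ) = 2 * M n (1, 0) + M n (0, 1) := by
      exact_mod_cast x_succ n
    have e : (M (n + 1 + 1) (0, 1) : ℝ) - lam0 * M (n + 1) (0, 1) =
        2 * ((M (n + 1) (1, 0) : ℝ) - lam0 * M n (1, 0)) + ((M (n + 1) (0, 1) : ℝ) - lam0 * M n (0, 1)) := by
      rw [a]
      linear_combination (-lam0) * b
    rw [e]
    have hd : 0 ≤ d0 := abs_nonneg _
    have hp : (0 : ℝ) < 1.3 ^ n := by positivity
    have : 0 ≤ d0 * 1.3 ^ n := by positivity
    have : 0 ≤ K * 1.3 ^ n := by positivity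
    rw [abs_le] at *
    rw [pow_succ]
    constructor <;> nlinarith [h1.1, h1.2, ih.1, ih.2]

theorem Q_neg {y : ℤ × ℤ} (h : Q y) : Q (-y) := by
  obtain ⟨K, hK⟩ := h
  refine ⟨K, fun n => ?_⟩
  rw [M_neg, M_neg]
  exact hK n

theorem Q_big {y : ℤ × ℤ} (h : g ^ 2 ≤ |cnj y|) : Q y := by
  refine ⟨0, fun n => ?_⟩
  rw [M_big _ _ h, M_big _ _ h]
  simp

theorem Q_step {y : ℤ × ℤ} (h0 : Q ((sh 0).symm y)) (h1 : Q ((sh 1).symm y)) (h2 : Q ((sh (-1)).symm y)) :
    Q y := by
  obtain ⟨K0, hK0⟩ := h0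
  obtain ⟨K1, hK1⟩ := h1
  obtain ⟨K2, hK2⟩ := h2
  refine ⟨|(M (0 + 1) y : ℝ) - lam0 * M 0 y| + (2 * K0 + K1 + K2), fun n => ?_⟩
  have hp : ∀ {K : ℝ} {z : ℤ × ℤ}, (∀ n : ℕ, |(M (n + 1) z : ℝ) - lam0 * M n z| ≤ K * 1.3 ^ n) → 0 ≤ K := by
    intro K z h
    have := h 0
    simp only [pow_zero, mul_one] at this
    exact (abs_nonneg _).trans this
  have p0 := hp hK0
  have p1 := hp hK1
  have p2 := hp hK2
  rcases n with _ | n
  · simp only [pow_zero, mul_one]
    linarith
  · have a : (M (n + 1 + 1) y : ℝ) = 2 * M (n + 1) ((sh 0).symm y) + M (n + 1) ((sh 1).symm y)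
        + M (n + 1) ((sh (-1)).symm y) := by exact_mod_cast M_succ (n + 1) y
    have b : (M (n + 1) y : ℝ) = 2 * M n ((sh 0).symm y) + M n ((sh 1).symm y)
        + M n ((sh (-1)).symm y) := by exact_mod_cast M_succ n y
    have q0 := hK0 n
    have q1 := hK1 n
    have q2 := hK2 n
    have e : (M (n + 1 + 1) y : ℝ) - lam0 * M (n + 1) y =
        2 * ((M (n + 1) ((sh 0).symm y) : ℝ) - lam0 * M n ((sh 0).symm y)) +
        ((M (n + 1) ((sh 1).symm y) : ℝ) - lam0 * M n ((sh 1).symm y)) +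
        ((M (n + 1) ((sh (-1)).symm y) : ℝ) - lam0 * M n ((sh (-1)).symm y)) := by
      rw [a]
      linear_combination (-lam0) * b
    rw [e]
    have r0 : 0 ≤ |(M (0 + 1) y : ℝ) - lam0 * M 0 y| * 1.3 ^ (n + 1) := by positivity
    have s0 : 0 ≤ K0 * 1.3 ^ n := by positivity
    have s1 : 0 ≤ K1 * 1.3 ^ n := by positivity
    have s2 : 0 ≤ K2 * 1.3 ^ n := by positivity
    rw [add_mul]
    rw [abs_le] at q0 q1 q2
    rw [abs_le]
    rw [pow_succ] at *
    constructor <;> nlinarith [q0.1, q0.2, q1.1, q1.2, q2.1, q2.2]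

theorem Q_base (y : ℤ × ℤ) (h : |val y| ≤ 1.7) : Q y := by
  by_cases hb : g ^ 2 ≤ |cnj y|
  · exact Q_big hb
  · push Not at hb
    obtain ⟨a, b⟩ := y
    have hs := g_sq
    have hg := g_lo
    have hg2 := g_hi
    rw [abs_le] at h
    rw [abs_lt] at hb
    simp only [val, cnj] at h hb
    have hb1 : b ≤ 1 := by
      by_contra hc
      push Not at hc
      have : (2 : ℝ) ≤ b := by exact_mod_cast hc
      nlinarith
    have hb2 : -1 ≤ b := by
      by_contra hc
      push Not at hc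
      have : (b : ℝ) ≤ -2 := by exact_mod_cast (by omega : b ≤ -2)
      nlinarith
    interval_cases b
    · -- b = -1
      have h1 : a ≤ 1 := by
        by_contra hc
        push Not at hc
        have : (2 : ℝ) ≤ a := by exact_mod_cast hc
        push_cast at *
        nlinarith
      have h2 : 0 ≤ a := by
        by_contra hc
        push Not at hc
        have : (a : ℝ) ≤ -1 := by exact_mod_cast (by omega : a ≤ -1)
        push_cast at *
        nlinarith
      have e1 : ((0, -1) : ℤ × ℤ) = -(0, 1) := by decide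
      have e2 : ((1, -1) : ℤ × ℤ) = -(-1, 1) := by decide
      interval_cases a
      · rw [e1]; exact Q_neg Q_x
      · rw [e2]; exact Q_neg Q_v
    · have h1 : a ≤ 1 := by
        by_contra hc
        push Not at hc
        have : (2 : ℝ) ≤ a := by exact_mod_cast hc
        push_cast at *
        nlinarith
      have h2 : -1 ≤ a := by
        by_contra hc
        push Not at hc
        have : (a : ℝ) ≤ -2 := by exact_mod_cast (by omega : a ≤ -2)
        push_cast at *
        nlinarith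
      have e1 : ((-1, 0) : ℤ × ℤ) = -(1, 0) := by decide
      have e2 : ((0, 0) : ℤ × ℤ) = 0 := by decide
      interval_cases a
      · rw [e1]; exact Q_neg Q_w
      · rw [e2]; exact Q_zero
      · exact Q_w
    · have h1 : a ≤ 0 := by
        by_contra hc
        push Not at hc
        have : (1 : ℝ) ≤ a := by exact_mod_cast hc
        push_cast at *
        nlinarith
      have h2 : -1 ≤ a := by
        by_contra hc
        push Not at hc
        have : (a : ℝ) ≤ -2 := by exact_mod_cast (by omega : a ≤ -2)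
        push_cast at *
        nlinarith
      interval_cases a
      · exact Q_v
      · exact Q_x

theorem Q_all (y : ℤ × ℤ) : Q y := by
  have key : ∀ k : ℕ, ∀ y : ℤ × ℤ, |val y| ≤ 1.7 + 0.03 * k → Q y := by
    intro k
    induction k with
    | zero => intro y hy; apply Q_base; simpa using hy
    | succ k ih =>
      intro y hy
      have hg := g_lo
      have hstep : ∀ c : ℤ, |(c : ℝ)| ≤ 1 → Q ((sh c).symm y) := by
        intro c hc
        apply ih
        rw [val_symm, abs_div, abs_of_pos g_pos, div_le_iff₀ g_pos]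
        have h1 : |val y - c| ≤ |val y| + 1 := (abs_sub _ _).trans (by linarith)
        push_cast at hy
        have hk : (0 : ℝ) ≤ k := Nat.cast_nonneg _
        nlinarith
      exact Q_step (hstep 0 (by simp)) (hstep 1 (by simp)) (hstep (-1) (by simp))
  obtain ⟨k, hk⟩ := exists_nat_ge (|val y| / 0.03)
  apply key k
  rw [div_le_iff₀ (by norm_num)] at hk
  linarith

theorem lim_exists (y : ℤ × ℤ) : ∃ l : ℝ, Tendsto (fun n : ℕ => (M n y : ℝ) / lam0 ^ n) atTop (𝓝 l) := by
  obtain ⟨K, hK⟩ := Q_all y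
  have hl := lam_lo
  have hl0 : 0 < lam0 := by linarith
  have hc : CauchySeq (fun n : ℕ => (M n y : ℝ) / lam0 ^ n) := by
    apply cauchySeq_of_le_geometric (1.3 / lam0) (K / lam0)
    · rw [div_lt_one hl0]; linarith
    · intro n
      rw [Real.dist_eq, abs_sub_comm]
      have e : (M (n + 1) y : ℝ) / lam0 ^ (n + 1) - (M n y : ℝ) / lam0 ^ n =
          ((M (n + 1) y : ℝ) - lam0 * M n y) / lam0 ^ (n + 1) := by
        field_simp
        ring
      rw [e, abs_div, abs_of_pos (pow_pos hl0 _), div_pow, pow_succ]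
      have := hK n
      calc |(M (n + 1) y : ℝ) - lam0 * M n y| / (lam0 ^ n * lam0) ≤ (K * 1.3 ^ n) / (lam0 ^ n * lam0) := by gcongr
        _ = K / lam0 * (1.3 ^ n / lam0 ^ n) := by field_simp
  exact cauchySeq_tendsto_of_complete hc

/-! ### X and pairs -/

/-- `val` as a homomorphism. -/
noncomputable def valHom : ℤ × ℤ →+ ℝ where
  toFun := val
  map_zero' := by simp [val]
  map_add' x y := by simp [val]; ring

theorem pow_range (k : ℕ) : g ^ k ∈ valHom.range := by
  induction k with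
  | zero => exact ⟨(1, 0), by simp [valHom, val]⟩
  | succ k ih =>
    obtain ⟨y, hy⟩ := ih
    refine ⟨sh 0 y, ?_⟩
    have hy' : val y = g ^ k := hy
    show val (sh 0 y) = _
    rw [val_sh, hy', pow_succ]
    push_cast
    ring

theorem X_range {x : ℝ} (hx : x ∈ X) : ∃ y : ℤ × ℤ, val y = x := by
  obtain ⟨n, _, c, _, rfl⟩ := hx
  have : ∑ i : Fin n, (c i : ℝ) * Real.goldenRatio ^ (n - 1 - (i : ℕ)) ∈ valHom.range := by
    apply AddSubgroup.sum_mem
    intro i _
    rw [← zsmul_eq_mul]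
    exact AddSubgroup.zsmul_mem _ (pow_range _) _
  exact this

theorem mem_X_of_N {n : ℕ} (hn : 1 ≤ n) {x : ℝ} (h : N n x ≠ 0) : x ∈ X := by
  unfold N at h
  have hne : Nonempty {p : (Fin n → Fin 2) × (Fin n → Fin 2) //
    ∑ i : Fin n, (((p.1 i : ℕ) : ℝ) - ((p.2 i : ℕ) : ℝ)) * Real.goldenRatio ^ (n - 1 - (i : ℕ)) = x} := by
    by_contra hc
    rw [not_nonempty_iff] at hc
    exact h Nat.card_of_isEmpty
  obtain ⟨p, hp⟩ := hne
  refine ⟨n, hn, fun i => ((p.1 i : ℕ) : ℤ) - ((p.2 i : ℕ) : ℤ), ?_, ?_⟩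
  · intro i
    have h1 := (p.1 i).2
    have h2 := (p.2 i).2
    simp only
    omega
  · rw [← hp]
    apply Finset.sum_congr rfl
    intro i _
    push_cast
    rfl

theorem N_of_mem_X {x : ℝ} (hx : x ∈ X) : ∃ n, 1 ≤ n ∧ N n x ≠ 0 := by
  obtain ⟨n, hn, c, hc, rfl⟩ := hx
  refine ⟨n, hn, ?_⟩
  unfold N
  have : Nonempty {p : (Fin n → Fin 2) × (Fin n → Fin 2) //
    ∑ i : Fin n, (((p.1 i : ℕ) : ℝ) - ((p.2 i : ℕ) : ℝ)) * Real.goldenRatio ^ (n - 1 - (i : ℕ)) =
      ∑ i : Fin n, (c i : ℝ) * Real.goldenRatio ^ (n - 1 - (i : ℕ))} := by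
    refine ⟨⟨fun i => if c i = 1 then 1 else 0, fun i => if c i = -1 then 1 else 0⟩, ?_⟩
    apply Finset.sum_congr rfl
    intro i _
    congr 1
    rcases hc i with h | h | h <;> simp [h]
  exact Nat.card_pos.ne'

theorem X_cnj {y : ℤ × ℤ} (h : val y ∈ X) : |cnj y| < g ^ 2 := by
  obtain ⟨n, _, hn⟩ := N_of_mem_X h
  exact M_supp n y hn

theorem X_fin (n : ℕ) : (X ∩ Set.Icc 0 (n : ℝ)).Finite := by
  have h := (fin_box (n : ℝ) (g ^ 2)).image val
  apply h.subset
  rintro x ⟨hx, h0, h1⟩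
  obtain ⟨y, rfl⟩ := X_range hx
  refine ⟨y, ⟨?_, (X_cnj hx).le⟩, rfl⟩
  rw [abs_of_nonneg h0]
  exact h1

open Classical in
/-- the weights on pairs -/
noncomputable def mup (mu : ℝ → ℝ) (y : ℤ × ℤ) : ℝ := if val y ∈ X then mu (val y) else 0

theorem IsWeight.lam_eq {lam : ℝ} {mu : ℝ → ℝ} (h : IsWeight lam mu) : lam = lam0 :=
  tendsto_nhds_unique h.growth growth0

theorem IsWeight.mup_lim {lam : ℝ} {mu : ℝ → ℝ} (h : IsWeight lam mu) (y : ℤ × ℤ) :
    Tendsto (fun n : ℕ => (M n y : ℝ) / lam0 ^ n) atTop (𝓝 (mup mu y)) := by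
  have hl := h.lam_eq
  subst hl
  unfold mup
  split_ifs with hy
  · exact h.lim _ hy
  · apply tendsto_const_nhds.congr'
    filter_upwards [eventually_ge_atTop 1] with n hn
    have : M n y = 0 := by
      by_contra hc
      exact hy (mem_X_of_N hn hc)
    rw [this]; simp

theorem IsWeight.wt {lam : ℝ} {mu : ℝ → ℝ} (h : IsWeight lam mu) : Wt lam0 (mup mu) where
  lo := by linarith [lam_lo]
  hi := by linarith [lam_hi]
  nonneg y := by
    apply ge_of_tendsto' (h.mup_lim y)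
    intro n
    have := lam_lo
    positivity
  supp y hy := by
    by_contra hc
    push Not at hc
    apply hy
    refine tendsto_nhds_unique (h.mup_lim y) (tendsto_const_nhds.congr fun n => ?_)
    rw [M_big n y hc.le]; simp
  sym y := by
    refine tendsto_nhds_unique (h.mup_lim (-y)) ((h.mup_lim y).congr fun n => ?_)
    rw [M_neg]
  recu y := by
    have hl : lam0 ≠ 0 := by have := lam_lo; positivity
    have h1 := ((h.mup_lim y).comp (tendsto_add_atTop_nat 1)).const_mul lam0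
    have h2 := (((h.mup_lim ((sh 0).symm y)).const_mul 2).add (h.mup_lim ((sh 1).symm y))).add
      (h.mup_lim ((sh (-1)).symm y))
    refine tendsto_nhds_unique h1 (h2.congr fun n => ?_)
    simp only [Function.comp]
    rw [M_succ]
    push_cast
    field_simp
    ring
  zero := by
    have : (1 / 3 : ℝ) ≤ mup mu 0 := by
      apply ge_of_tendsto' (h.mup_lim 0)
      intro n
      have hl : 0 < lam0 := by linarith [lam_lo]
      rw [le_div_iff₀ (pow_pos hl n)]
      linarith [le_u n]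
    linarith

theorem sum_eq (mu f : ℝ → ℝ) (n : ℕ) :
    ∑' x : ↥(X ∩ Set.Icc 0 (n : ℝ)), mu x * f x = A (mup mu) (fun y => ind (n : ℝ) (val y) * f (val y)) := by
  classical
  rw [tsum_subtype (X ∩ Set.Icc 0 (n : ℝ)) (fun x => mu x * f x)]
  rw [← val_inj.tsum_eq]
  · unfold A
    congr 1
    ext y
    unfold mup ind
    by_cases h1 : val y ∈ X <;> by_cases h2 : 0 ≤ val y ∧ val y ≤ (n : ℝ)
    · rw [Set.indicator_of_mem (show val y ∈ X ∩ Set.Icc 0 (n : ℝ) from ⟨h1, h2⟩)]
      simp [h1, h2]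
    · rw [Set.indicator_of_notMem (show val y ∉ X ∩ Set.Icc 0 (n : ℝ) from fun h => h2 h.2)]
      simp only [h1, h2, if_true, if_false]
      ring
    · rw [Set.indicator_of_notMem (show val y ∉ X ∩ Set.Icc 0 (n : ℝ) from fun h => h1 h.1)]
      simp only [h1, if_false]
      ring
    · rw [Set.indicator_of_notMem (show val y ∉ X ∩ Set.Icc 0 (n : ℝ) from fun h => h1 h.1)]
      simp only [h1, if_false]
      ring
  · intro x hx
    have : x ∈ X ∩ Set.Icc 0 (n : ℝ) := Set.mem_of_indicator_ne_zero hx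
    exact X_range this.1

/-- **MP_287b0d_an, full negative answer.**  The growth rate `lam` and the weight `mu` exist, the sets
`X ∩ [0, n]` are finite with positive total weight, and the probability measures `ν_n` do NOT tend to
Lebesgue measure: for `f(t) = cos (2 π t)` the distance `|∫ f dν_n - ∫ f dt|` stays above a positive
constant for infinitely many `n`. -/
theorem result :
    (∃ lam mu, IsWeight lam mu) ∧
    ∀ (lam : ℝ) (mu : ℝ → ℝ), IsWeight lam mu →
      (∀ n : ℕ, (X ∩ Set.Icc 0 (n : ℝ)).Finite ∧ 0 < W mu n) ∧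
      ∃ f : ℝ → ℝ, Continuous f ∧ ∃ ε : ℝ, 0 < ε ∧
        ∃ᶠ n : ℕ in atTop, ε ≤ |nu mu n f - ∫ t in (0 : ℝ)..1, f t| := by
  classical
  refine ⟨?_, ?_⟩
  · refine ⟨lam0, fun x => if h : ∃ y, val y = x then (lim_exists h.choose).choose else 0, ?_, growth0, ?_⟩
    · linarith [lam_lo]
    · intro x hx
      have h := X_range hx
      simp only [dif_pos h]
      have h1 := (lim_exists h.choose).choose_spec
      have h2 := h.choose_spec
      refine h1.congr fun n => ?_
      unfold M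
      rw [h2]
  · intro lam mu h
    have hw := h.wt
    have eW : ∀ n : ℕ, W mu n = Wr (mup mu) (n : ℝ) := by
      intro n
      have := sum_eq mu (fun _ => 1) n
      simp only [mul_one] at this
      exact this
    have hWpos : ∀ n : ℕ, 0 < W mu n := by
      intro n
      rw [eW]
      have h1 := hw.V_le_W (n : ℝ)
      have h2 := hw.V_zero (R := (n : ℝ)) (Nat.cast_nonneg _)
      have h3 := hw.zero
      linarith
    refine ⟨fun n => ⟨X_fin n, hWpos n⟩, fun t => Real.cos (2 * Real.pi * t), by fun_prop, ?_⟩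
    obtain ⟨ε, hε, hfin⟩ := hw.final
    refine ⟨ε, hε, ?_⟩
    rw [frequently_atTop]
    intro n0
    obtain ⟨n, hn, hJ⟩ := hfin n0
    refine ⟨n, hn, ?_⟩
    have hint : ∫ t in (0 : ℝ)..1, Real.cos (2 * Real.pi * t) = 0 := by
      rw [intervalIntegral.integral_comp_mul_left (fun t => Real.cos t) (by positivity : 2 * Real.pi ≠ 0)]
      simp
    have hnu : nu mu n (fun t => Real.cos (2 * Real.pi * t)) = (W mu n)⁻¹ * J (mup mu) (n : ℝ) := by
      unfold nu J
      rw [← sum_eq mu (fun t => Real.cos (2 * Real.pi * t)) n]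
      congr 2
      ext x
      congr 1
      have e : 2 * Real.pi * Int.fract (x : ℝ) = 2 * Real.pi * x - (⌊(x : ℝ)⌋ : ℝ) * (2 * Real.pi) := by
        rw [Int.fract]; ring
      show Real.cos (2 * Real.pi * Int.fract (x : ℝ)) = Real.cos (2 * Real.pi * (x : ℝ))
      rw [e, Real.cos_sub_int_mul_two_pi]
    rw [hint, hnu, sub_zero]
    refine le_trans ?_ (le_abs_self _)
    rw [← eW] at hJ
    rw [inv_mul_eq_div, le_div_iff₀ (hWpos n)]
    exact hJ

end Pool.Agent.Results.MP_287b0d_an.NotEquidistributed
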